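import Mathlib

/-!
# Cancellation of `S^2 × S^2` in the finite quotients of group trisections: the definitions
-/

namespace Pool.Agent.PP

open scoped commutatorElement

/-- A marked triple: a group `G` with three subgroups `K 0`, `K 1`, `K 2`, an element `r`, along
which sums are formed, and further marked elements `m j` (none for closed 4-manifolds).  For a
trisected closed 4-manifold, `G` is the fundamental group of the central surface minus a disk, `r` is
the boundary loop and `K i` is the kernel of the map to the fundamental group of the `i`-th
handlebody. -/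
structure MT (J : Type) where
  G : Type
  [grp : Group G]
  r : G
  K : Fin 3 → Subgroup G
  m : J → G

attribute [instance] MT.grp

namespace MT

/-- The marked triple is admissible: the group is finitely generated and the subgroups are normal. -/
structure Adm {J : Type} (T : MT J) : Prop where
  fg : Group.FG T.G
  normal : ∀ i, (T.K i).Normal

/-- The product `r r'` in the free product. -/
abbrev sumElt {G H : Type} [Group G] [Group H] (r : G) (r' : H) : Monoid.Coprod G H :=
  Monoid.Coprod.inl r * Monoid.Coprod.inr r'

/-- The normal closure of the union of `K` and `K'` in the free product. -/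
abbrev sumSub {G H : Type} [Group G] [Group H] (K : Subgroup G) (K' : Subgroup H) :
    Subgroup (Monoid.Coprod G H) :=
  Subgroup.normalClosure ((Monoid.Coprod.inl '' (K : Set G)) ∪ (Monoid.Coprod.inr '' (K' : Set H)))

/-- The sum `T # U`: the group is the free product, `r` is the product of the elements `r` of the two
summands, the subgroups are the normal closures of the unions, the further marks are those of
`T`. -/
abbrev sum {J : Type} (T : MT J) (U : MT Empty) : MT J where
  G := Monoid.Coprod T.G U.G
  r := sumElt T.r U.r
  K := fun i => sumSub (T.K i) (U.K i)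
  m := fun j => Monoid.Coprod.inl (T.m j)

end MT

/-- The free group on `a_1, …, a_g, b_1, …, b_g`. -/
abbrev F (g : ℕ) : Type := FreeGroup (Fin g × Bool)

/-- The generator `a_i`. -/
def a {g : ℕ} (i : Fin g) : F g := FreeGroup.of (i, false)

/-- The generator `b_i`. -/
def b {g : ℕ} (i : Fin g) : F g := FreeGroup.of (i, true)

/-- The genus one triple: `G` is free on `a`, `b`, `r = [a,b]`, and `K j` is the normal closure of
`a` if `σ j = false` and of `b` if `σ j = true`.  It belongs to the genus one trisection of
`S^1 × S^3` if `σ` is constant and to a genus one trisection of `S^4` otherwise. -/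
abbrev genusOne (σ : Fin 3 → Bool) : MT Empty where
  G := F 1
  r := ⁅(a 0 : F 1), b 0⁆
  K := fun j => Subgroup.normalClosure {if σ j then b 0 else a 0}
  m := Empty.elim

/-- The triple of the genus two trisection of `S^2 × S^2`: `G` is free on `a_1, b_1, a_2, b_2`,
`r = [a_1,b_1][a_2,b_2]`, and `K 0`, `K 1`, `K 2` are the normal closures of `{a_1, a_2}`,
`{b_1, b_2}` and `{b_2⁻¹ a_1, b_1⁻¹ a_2}`. -/
abbrev S2S2 : MT Empty where
  G := F 2
  r := ⁅(a 0 : F 2), b 0⁆ * ⁅(a 1 : F 2), b 1⁆
  K := ![Subgroup.normalClosure {a 0, a 1}, Subgroup.normalClosure {b 0, b 1},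
    Subgroup.normalClosure {(b 1)⁻¹ * a 0, (b 0)⁻¹ * a 1}]
  m := Empty.elim

/-- The pieces which will be cancelled: the genus two trisection of `S^2 × S^2` and the genus one
trisections of `S^4` and `S^1 × S^3`. -/
def IsPiece (U : MT Empty) : Prop := U = S2S2 ∨ ∃ σ : Fin 3 → Bool, U = genusOne σ

/-- The intersection of the kernels of all homomorphisms from `G` to the symmetric group of degree
`n`.  If `G` is finitely generated, these are subgroups of finite index, and every normal subgroup of
finite index of `G` contains one of them. -/
def RR (G : Type) [Group G] (n : ℕ) : Subgroup G := ⨅ f : G →* Equiv.Perm (Fin n), f.ker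

instance (G : Type) [Group G] (n : ℕ) : (RR G n).Normal :=
  Subgroup.normal_iInf_normal fun f => MonoidHom.normal_ker f

/-- The finite quotient `G / RR G n`. -/
abbrev FinQ (G : Type) [Group G] (n : ℕ) : Type := G ⧸ RR G n

/-- The quotient map from `G` to `G / RR G n`. -/
abbrev toQ (G : Type) [Group G] (n : ℕ) : G →* FinQ G n := QuotientGroup.mk' (RR G n)

/-- The isomorphism `φ` carries the class of `x` to the class of `y`. -/
abbrev Sends {G H : Type} [Group G] [Group H] {n : ℕ} (φ : FinQ G n ≃* FinQ H n) (x : G) (y : H) :
    Prop :=
  φ (toQ G n x) = toQ H n y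

/-- The isomorphism `φ` carries the image of `K` onto the image of `K'`. -/
abbrev Carries {G H : Type} [Group G] [Group H] {n : ℕ} (φ : FinQ G n ≃* FinQ H n)
    (K : Subgroup G) (K' : Subgroup H) : Prop :=
  (K.map (toQ G n)).map φ.toMonoidHom = K'.map (toQ H n)

/-- `S` and `T` are isomorphic in all finite quotients: there are isomorphisms
`Φ n : G / RR G n ≃ G' / RR G' n`, compatible with the projections from level `n` to level
`n' ≤ n`, which carry the class of `r` to the class of `r'`, the classes of the marks `m j` to the
classes of the marks `m' j`, and the images of the subgroups `K i` onto the images of the `K' i`. -/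
def FinIso {J : Type} (S T : MT J) : Prop :=
  ∃ Φ : ∀ n, FinQ S.G n ≃* FinQ T.G n,
    (∀ n n' x y, n' ≤ n → Sends (Φ n) x y → Sends (Φ n') x y) ∧
    (∀ n, Sends (Φ n) S.r T.r) ∧ (∀ n j, Sends (Φ n) (S.m j) (T.m j)) ∧
    ∀ n i, Carries (Φ n) (S.K i) (T.K i)

end Pool.Agent.PP
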