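import Mathlib

/-!
Project PP: the positivity lemma.
-/

namespace Pool.Agent.PP

open Finset

section

variable {Q : Type} [Group Q] [Fintype Q]

/-- The standard inner product on `ℝ[Q]`. -/
noncomputable def ip (u v : MonoidAlgebra ℝ Q) : ℝ := ∑ q, u.coeff q * v.coeff q

theorem ip_add_left (u u' v : MonoidAlgebra ℝ Q) : ip (u + u') v = ip u v + ip u' v := by
  simp [ip, add_mul, Finset.sum_add_distrib]

omit [Group Q] in
theorem ip_comm (u v : MonoidAlgebra ℝ Q) : ip u v = ip v u := by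
  simp [ip, mul_comm]

theorem ip_add_right (u v v' : MonoidAlgebra ℝ Q) : ip u (v + v') = ip u v + ip u v' := by
  rw [ip_comm, ip_add_left, ip_comm v, ip_comm v']

theorem ip_zero_left (v : MonoidAlgebra ℝ Q) : ip 0 v = 0 := by simp [ip]

theorem ip_zero_right (v : MonoidAlgebra ℝ Q) : ip v 0 = 0 := by simp [ip]

theorem ip_sum_left {ι : Type*} (s : Finset ι) (f : ι → MonoidAlgebra ℝ Q) (v : MonoidAlgebra ℝ Q) :
    ip (∑ i ∈ s, f i) v = ∑ i ∈ s, ip (f i) v := by
  classical
  induction s using Finset.induction_on with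
  | empty => simp [ip_zero_left]
  | insert i s hi ih => rw [sum_insert hi, sum_insert hi, ip_add_left, ih]

theorem ip_sum_right {ι : Type*} (s : Finset ι) (f : ι → MonoidAlgebra ℝ Q) (v : MonoidAlgebra ℝ Q) :
    ip v (∑ i ∈ s, f i) = ∑ i ∈ s, ip v (f i) := by
  rw [ip_comm, ip_sum_left]
  exact sum_congr rfl fun i _ => ip_comm _ _

omit [Group Q] in
theorem ip_self_nonneg (v : MonoidAlgebra ℝ Q) : 0 ≤ ip v v :=
  Finset.sum_nonneg fun q _ => mul_self_nonneg (v.coeff q)

theorem ip_self_eq_zero {v : MonoidAlgebra ℝ Q} (h : ip v v = 0) : v = 0 := by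
  have := (Finset.sum_eq_zero_iff_of_nonneg (fun q _ => mul_self_nonneg (v.coeff q))).mp h
  ext q
  have h2 := this q (mem_univ q)
  simpa using h2

theorem ip_mul_single (x v : MonoidAlgebra ℝ Q) (g : Q) :
    ip (x * MonoidAlgebra.single g 1) v = ip x (v * MonoidAlgebra.single g⁻¹ 1) := by
  unfold ip
  refine Fintype.sum_equiv (Equiv.mulRight g⁻¹) _ _ fun q => ?_
  simp [MonoidAlgebra.coeff_mul_single_apply]

end

/-- **Positivity lemma.**  A finite group `W` acts on a finite set `Y` with a fixed point, `m : Y → Q`.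
Then `∑_{w,y} m(y)⁻¹ m(w y)` is not a right zero divisor in `ℝ[Q]`. -/
theorem pos_cancel {Q W Y : Type} [Group Q] [Fintype Q] [Group W] [Fintype W] [Fintype Y]
    [MulAction W Y] (m : Y → Q) (y₀ : Y) (hy : ∀ w : W, w • y₀ = y₀) (v : MonoidAlgebra ℝ Q)
    (h : v * (∑ w : W, ∑ y : Y, MonoidAlgebra.single ((m y)⁻¹ * m (w • y)) (1 : ℝ)) = 0) : v = 0 := by
  set T : Y → MonoidAlgebra ℝ Q := fun y => v * MonoidAlgebra.single (m y)⁻¹ 1 with hT
  have h1 : ∑ w : W, ∑ y : Y, ip (T y) (T (w • y)) = 0 := by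
    have h2 : ip (v * (∑ w : W, ∑ y : Y, MonoidAlgebra.single ((m y)⁻¹ * m (w • y)) (1 : ℝ))) v
        = 0 := by rw [h, ip_zero_left]
    rw [← h2, Finset.mul_sum, ip_sum_left]
    refine Finset.sum_congr rfl fun w _ => ?_
    rw [Finset.mul_sum, ip_sum_left]
    refine Finset.sum_congr rfl fun y _ => ?_
    have h3 : (MonoidAlgebra.single ((m y)⁻¹ * m (w • y)) (1 : ℝ) : MonoidAlgebra ℝ Q)
        = MonoidAlgebra.single (m y)⁻¹ 1 * MonoidAlgebra.single (m (w • y)) 1 := by
      simp [MonoidAlgebra.single_mul_single]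
    rw [h3, ← mul_assoc]
    exact (ip_mul_single _ _ _).symm
  have h4 : ∑ y : Y, ip (∑ w : W, T (w • y)) (∑ w : W, T (w • y)) = 0 := by
    have h5 : ∀ w' : W, ∑ w : W, ∑ y : Y, ip (T (w' • y)) (T (w • y)) = 0 := by
      intro w'
      rw [← h1, Finset.sum_comm, Finset.sum_comm (f := fun w y => ip (T y) (T (w • y)))]
      refine Fintype.sum_equiv (MulAction.toPerm w') _ _ fun y => ?_
      refine Fintype.sum_equiv (Equiv.mulRight w'⁻¹) _ _ fun w => ?_
      simp [mul_smul]
    have h6 : ∀ y : Y, ip (∑ w : W, T (w • y)) (∑ w : W, T (w • y))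
        = ∑ w' : W, ∑ w : W, ip (T (w' • y)) (T (w • y)) := by
      intro y
      rw [ip_sum_left]
      exact Finset.sum_congr rfl fun w' _ => ip_sum_right _ _ _
    rw [Finset.sum_congr rfl fun y _ => h6 y, Finset.sum_comm]
    refine Finset.sum_eq_zero fun w' _ => ?_
    rw [Finset.sum_comm]
    exact h5 w'
  have h7 := (Finset.sum_eq_zero_iff_of_nonneg (fun y _ => ip_self_nonneg _)).mp h4 y₀ (mem_univ _)
  have h8 := ip_self_eq_zero h7
  rw [Finset.sum_congr rfl fun w _ => by rw [hy w], Finset.sum_const, Finset.card_univ] at h8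
  have h9 : T y₀ = 0 := by
    rcases smul_eq_zero.mp h8 with h10 | h10
    · exact absurd h10 Fintype.card_ne_zero
    · exact h10
  have h11 : T y₀ * MonoidAlgebra.single (m y₀) 1 = v := by
    rw [hT]
    simp only [mul_assoc, MonoidAlgebra.single_mul_single, inv_mul_cancel, mul_one]
    exact mul_one v
  rw [← h11, h9, zero_mul]

end Pool.Agent.PP
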