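import Pool.Agent.Lib_helper79.PP.Defs
import Pool.Agent.Lib_helper79.PP.Pos

/-!
# The element `gen T A s = ∑ φ(r)` of the real group algebra
-/

namespace Pool.Agent.PP

open Finset

variable {Q : Type} [Group Q] {J : Type}

/-- The homomorphisms `φ : G → Q` with `φ (K i) ≤ A i` and `φ (m j) = s j`. -/
abbrev HomT (T : MT J) (A : Fin 3 → Subgroup Q) (s : J → Q) : Type :=
  {φ : T.G →* Q // (∀ i, (T.K i).map φ ≤ A i) ∧ ∀ j, φ (T.m j) = s j}

/-- `∑ φ(r)` over the homomorphisms `φ : G → Q` with `φ (K i) ≤ A i` and `φ (m j) = s j`. -/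
noncomputable def gen (T : MT J) (A : Fin 3 → Subgroup Q) (s : J → Q) : MonoidAlgebra ℝ Q :=
  ∑ᶠ φ : HomT T A s, MonoidAlgebra.single (φ.1 T.r) (1 : ℝ)

theorem finite_hom (G : Type) [Group G] [Group.FG G] [Finite Q] : Finite (G →* Q) := by
  obtain ⟨S, hS⟩ := (Group.fg_def.mp ‹Group.FG G›)
  have : Function.Injective (fun (φ : G →* Q) (s : S) => φ s.1) := by
    intro φ ψ h
    apply MonoidHom.eq_of_eqOn_dense hS
    intro x hx
    exact congrFun h ⟨x, hx⟩
  exact Finite.of_injective _ this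

theorem fg_coprod (G H : Type) [Group G] [Group H] [Group.FG G] [Group.FG H] :
    Group.FG (Monoid.Coprod G H) := by
  have h1 : ((Monoid.Coprod.inl : G →* Monoid.Coprod G H).range ⊔
      (Monoid.Coprod.inr : H →* Monoid.Coprod G H).range) = ⊤ := by
    rw [eq_top_iff]
    intro x _
    induction x using Monoid.Coprod.induction_on with
    | inl m => exact Subgroup.mem_sup_left ⟨m, rfl⟩
    | inr n => exact Subgroup.mem_sup_right ⟨n, rfl⟩
    | mul x y hx hy => exact mul_mem (hx trivial) (hy trivial)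
  have h2 : ((Monoid.Coprod.inl : G →* Monoid.Coprod G H).range).FG :=
    (Group.fg_iff_subgroup_fg _).mp inferInstance
  have h3 : ((Monoid.Coprod.inr : H →* Monoid.Coprod G H).range).FG :=
    (Group.fg_iff_subgroup_fg _).mp inferInstance
  rw [Group.fg_def, ← h1]
  exact h2.sup h3

theorem adm_sum {T : MT J} {U : MT Empty} (hT : T.Adm) (hU : U.Adm) : (T.sum U).Adm := by
  have := hT.fg
  have := hU.fg
  exact ⟨fg_coprod T.G U.G, fun i => Subgroup.normalClosure_normal⟩

theorem finite_HomT [Finite Q] {T : MT J} (hT : T.Adm) (A : Fin 3 → Subgroup Q) (s : J → Q) :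
    Finite (HomT T A s) := by
  have := hT.fg
  have := finite_hom (Q := Q) T.G
  infer_instance

/-- Homomorphisms of a sum. -/
def homSumEquiv (S : MT J) (T : MT Empty) (A : Fin 3 → Subgroup Q) (hA : ∀ i, (A i).Normal)
    (s : J → Q) (t : Empty → Q) : HomT S A s × HomT T A t ≃ HomT (S.sum T) A s where
  toFun p := ⟨Monoid.Coprod.lift p.1.1 p.2.1, by
    intro i
    rw [Subgroup.map_le_iff_le_comap]
    refine @Subgroup.normalClosure_le_normal _ _ _ _ ((hA i).comap _) ?_
    rintro x (⟨y, hy, rfl⟩ | ⟨y, hy, rfl⟩)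
    · change Monoid.Coprod.lift p.1.1 p.2.1 (Monoid.Coprod.inl y) ∈ A i
      rw [Monoid.Coprod.lift_apply_inl]
      exact p.1.2.1 i (Subgroup.mem_map_of_mem _ hy)
    · change Monoid.Coprod.lift p.1.1 p.2.1 (Monoid.Coprod.inr y) ∈ A i
      rw [Monoid.Coprod.lift_apply_inr]
      exact p.2.2.1 i (Subgroup.mem_map_of_mem _ hy), by
    intro j
    change Monoid.Coprod.lift p.1.1 p.2.1 (Monoid.Coprod.inl _) = s j
    rw [Monoid.Coprod.lift_apply_inl]
    exact p.1.2.2 j⟩
  invFun φ := ⟨⟨φ.1.comp Monoid.Coprod.inl, by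
    intro i
    rw [← Subgroup.map_map]
    refine le_trans (Subgroup.map_mono ?_) (φ.2.1 i)
    rintro _ ⟨y, hy, rfl⟩
    exact Subgroup.subset_normalClosure (Or.inl ⟨y, hy, rfl⟩), φ.2.2⟩,
    ⟨φ.1.comp Monoid.Coprod.inr, by
    intro i
    rw [← Subgroup.map_map]
    refine le_trans (Subgroup.map_mono ?_) (φ.2.1 i)
    rintro _ ⟨y, hy, rfl⟩
    exact Subgroup.subset_normalClosure (Or.inr ⟨y, hy, rfl⟩), fun j => j.elim⟩⟩
  left_inv p := by
    refine Prod.ext (Subtype.ext ?_) (Subtype.ext ?_)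
    · exact Monoid.Coprod.lift_comp_inl _ _
    · exact Monoid.Coprod.lift_comp_inr _ _
  right_inv φ := by
    refine Subtype.ext ?_
    exact Monoid.Coprod.hom_ext (Monoid.Coprod.lift_comp_inl _ _) (Monoid.Coprod.lift_comp_inr _ _)

theorem gen_sum [Finite Q] {S : MT J} {T : MT Empty} (hS : S.Adm) (hT : T.Adm)
    (A : Fin 3 → Subgroup Q) (hA : ∀ i, (A i).Normal) (s : J → Q) (t : Empty → Q) :
    gen (S.sum T) A s = gen S A s * gen T A t := by
  classical
  have := finite_HomT hS A s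
  have := finite_HomT hT A t
  have := finite_HomT (adm_sum hS hT) A s
  have := Fintype.ofFinite (HomT S A s)
  have := Fintype.ofFinite (HomT T A t)
  have := Fintype.ofFinite (HomT (S.sum T) A s)
  unfold gen
  rw [finsum_eq_sum_of_fintype, finsum_eq_sum_of_fintype, finsum_eq_sum_of_fintype,
    Finset.sum_mul_sum, ← Fintype.sum_prod_type']
  refine (Fintype.sum_equiv (homSumEquiv S T A hA s t) _ _ fun p => ?_).symm
  rw [MonoidAlgebra.single_mul_single, mul_one]
  rfl

/-- Right cancellability. -/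
def RC (u : MonoidAlgebra ℝ Q) : Prop := ∀ v : MonoidAlgebra ℝ Q, v * u = 0 → v = 0

theorem RC.cancel {u v w : MonoidAlgebra ℝ Q} (hu : RC u) (h : v * u = w * u) : v = w := by
  have := hu (v - w) (by rw [sub_mul, h, sub_self])
  exact sub_eq_zero.mp this

/-- The coefficients of `gen` are numbers of homomorphisms. -/
theorem coeff_gen [Finite Q] {T : MT J} (hT : T.Adm) (A : Fin 3 → Subgroup Q) (s : J → Q) (q : Q) :
    (gen T A s).coeff q = Nat.card {φ : T.G →* Q //
      ((∀ i, (T.K i).map φ ≤ A i) ∧ ∀ j, φ (T.m j) = s j) ∧ φ T.r = q} := by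
  classical
  have := finite_HomT hT A s
  have := Fintype.ofFinite (HomT T A s)
  unfold gen
  rw [finsum_eq_sum_of_fintype, MonoidAlgebra.coeff_sum, Finsupp.finsetSum_apply]
  simp only [MonoidAlgebra.coeff_single, Finsupp.single_apply]
  rw [Finset.sum_boole]
  have h1 : Nat.card {φ : T.G →* Q //
      ((∀ i, (T.K i).map φ ≤ A i) ∧ ∀ j, φ (T.m j) = s j) ∧ φ T.r = q}
      = Nat.card {φ : HomT T A s // φ.1 T.r = q} :=
    Nat.card_congr (Equiv.subtypeSubtypeEquivSubtypeInter _ _).symm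
  rw [h1, Nat.card_eq_fintype_card, Fintype.card_subtype]

/-- The element `r` may be replaced by a conjugate. -/
theorem gen_conj [Finite Q] (T : MT Empty) (hT : ∀ i, (T.K i).Normal) (A : Fin 3 → Subgroup Q)
    (s : Empty → Q) (x : T.G) :
    gen (Q := Q) ⟨T.G, x * T.r * x⁻¹, T.K, T.m⟩ A s = gen T A s := by
  unfold gen
  have hm : ∀ (y : T.G) i, (T.K i).map (MulAut.conj y).toMonoidHom ≤ T.K i := by
    rintro y i _ ⟨z, hz, rfl⟩
    exact (hT i).conj_mem z hz y
  let e : HomT T A s ≃ HomT (⟨T.G, x * T.r * x⁻¹, T.K, T.m⟩ : MT Empty) A s :=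
    { toFun := fun φ => ⟨φ.1.comp (MulAut.conj x⁻¹).toMonoidHom, fun i => by
        rw [← Subgroup.map_map]
        exact (Subgroup.map_mono (hm x⁻¹ i)).trans (φ.2.1 i), fun j => j.elim⟩
      invFun := fun φ => ⟨φ.1.comp (MulAut.conj x).toMonoidHom, fun i => by
        rw [← Subgroup.map_map]
        exact (Subgroup.map_mono (hm x i)).trans (φ.2.1 i), fun j => j.elim⟩
      left_inv := fun φ => by
        refine Subtype.ext (MonoidHom.ext fun y => ?_)
        simp [MulAut.conj_apply, mul_assoc]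
      right_inv := fun φ => by
        refine Subtype.ext (MonoidHom.ext fun y => ?_)
        simp [MulAut.conj_apply, mul_assoc] }
  rw [← finsum_comp_equiv e]
  refine finsum_congr fun φ => ?_
  congr 1
  change φ.1 ((MulAut.conj x⁻¹) (x * T.r * x⁻¹)) = φ.1 T.r
  congr 1
  simp [mul_assoc]

end Pool.Agent.PP
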