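import Pool.Agent.Lib_helper79.PP.Pieces
import Pool.Agent.Lib_helper44.PT.Tower

/-!
# The cancellation theorem
-/

namespace Pool.Agent.PP

open Pool.Agent.PT44

variable {J : Type}

theorem mem_RR {G : Type} [Group G] {n : ℕ} {x : G} :
    x ∈ RR G n ↔ ∀ f : G →* Equiv.Perm (Fin n), f x = 1 := by
  simp [RR, Subgroup.mem_iInf, MonoidHom.mem_ker]

theorem RR_le_ker {G : Type} [Group G] {Q : Type} [Group Q] [Finite Q] {n : ℕ}
    (hn : Nat.card Q ≤ n) (φ : G →* Q) : RR G n ≤ φ.ker := by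
  intro x hx
  obtain ⟨ι, hι⟩ := exists_embedding hn
  have h1 := mem_RR.1 hx (ι.comp φ)
  rw [MonoidHom.comp_apply] at h1
  exact hι (h1.trans (map_one ι).symm)

section

variable {G H : Type} [Group G] [Group H] {Q : Type} [Group Q] [Finite Q] {n : ℕ}
  (hn : Nat.card Q ≤ n)

/-- The homomorphism on the quotient. -/
def low (φ : G →* Q) : G ⧸ RR G n →* Q :=
  QuotientGroup.lift (RR G n) φ fun _ hx => RR_le_ker hn φ hx

theorem low_comp (φ : G →* Q) : (low hn φ).comp (toQ G n) = φ := rfl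

/-- Transport of a homomorphism. -/
def tr (e : (G ⧸ RR G n) ≃* (H ⧸ RR H n)) (φ : H →* Q) : G →* Q :=
  ((low hn φ).comp e.toMonoidHom).comp (toQ G n)

theorem low_tr (e : (G ⧸ RR G n) ≃* (H ⧸ RR H n)) (φ : H →* Q) :
    low hn (tr hn e φ) = (low hn φ).comp e.toMonoidHom := by
  refine MonoidHom.ext fun x => ?_
  obtain ⟨x, rfl⟩ := QuotientGroup.mk'_surjective _ x
  rfl

theorem tr_symm (e : (G ⧸ RR G n) ≃* (H ⧸ RR H n)) (φ : H →* Q) :
    tr hn e.symm (tr hn e φ) = φ := by
  rw [tr, low_tr]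
  refine MonoidHom.ext fun x => ?_
  change low hn φ (e (e.symm (toQ H n x))) = φ x
  rw [MulEquiv.apply_symm_apply]
  rfl

theorem map_tr (e : (G ⧸ RR G n) ≃* (H ⧸ RR H n)) (φ : H →* Q) {K : Subgroup G} {K' : Subgroup H}
    (hK : (K.map (toQ G n)).map e.toMonoidHom = K'.map (toQ H n)) :
    K.map (tr hn e φ) = K'.map φ := by
  rw [tr, ← Subgroup.map_map, ← Subgroup.map_map, hK, Subgroup.map_map, low_comp]

theorem tr_apply (e : (G ⧸ RR G n) ≃* (H ⧸ RR H n)) (φ : H →* Q) {x : G} {y : H}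
    (h : e (toQ G n x) = toQ H n y) : tr hn e φ x = φ y := by
  change low hn φ (e (toQ G n x)) = φ y
  rw [h]
  rfl

end

/-- `gen` depends only on the finite quotients. -/
theorem gen_eq_of_finIso {S T : MT J} (h : FinIso S T) (Q : Type) [Group Q] [Finite Q]
    (A : Fin 3 → Subgroup Q) (s : J → Q) : gen S A s = gen T A s := by
  obtain ⟨Φ, -, h1, h2, h3⟩ := h
  have hn : Nat.card Q ≤ Nat.card Q := le_rfl
  set n := Nat.card Q with hnn
  have h3' : ∀ i, ((T.K i).map (toQ T.G n)).map (Φ n).symm.toMonoidHom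
      = (S.K i).map (toQ S.G n) := by
    intro i
    rw [← h3 n i, Subgroup.map_map]
    have h5 : (Φ n).symm.toMonoidHom.comp (Φ n).toMonoidHom = MonoidHom.id _ := by
      ext x
      simp
    rw [h5, Subgroup.map_id]
  have h2' : ∀ j, (Φ n).symm (toQ T.G n (T.m j)) = toQ S.G n (S.m j) := fun j => by
    rw [← h2 n j, MulEquiv.symm_apply_apply]
  let e : HomT S A s ≃ HomT T A s :=
    { toFun := fun φ => ⟨tr hn (Φ n).symm φ.1, fun i => by
        rw [map_tr hn (Φ n).symm φ.1 (h3' i)]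
        exact φ.2.1 i, fun j => by
        rw [tr_apply hn (Φ n).symm φ.1 (h2' j)]
        exact φ.2.2 j⟩
      invFun := fun φ => ⟨tr hn (Φ n) φ.1, fun i => by
        rw [map_tr hn (Φ n) φ.1 (h3 n i)]
        exact φ.2.1 i, fun j => by
        rw [tr_apply hn (Φ n) φ.1 (h2 n j)]
        exact φ.2.2 j⟩
      left_inv := fun φ => Subtype.ext (tr_symm hn (Φ n).symm φ.1)
      right_inv := fun φ => Subtype.ext (tr_symm hn (Φ n) φ.1) }
  unfold gen
  rw [← finsum_comp_equiv e]
  refine finsum_congr fun φ => ?_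
  congr 1
  exact (tr_apply hn (Φ n).symm φ.1 (by rw [← h1 n, MulEquiv.symm_apply_apply])).symm

/-- The elements `gen` determine the finite quotients. -/
theorem finIso_of_gen_eq {S T : MT J} (hS : S.Adm) (hT : T.Adm)
    (h : ∀ (Q : Type) [Group Q] [Finite Q] (A : Fin 3 → Subgroup Q) (s : J → Q),
      (∀ i, (A i).Normal) → gen S A s = gen T A s) : FinIso S T := by
  have hfS := hS.fg
  have hfT := hT.fg
  have hnS := hS.normal
  have hnT := hT.normal
  have key : ∀ {U : MT J} (hU : U.Adm) (Q : Type) [Group Q] [Finite Q] (A : Fin 3 → Subgroup Q)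
      (s : Option J → Q), (Nat.card (HomLe U.K (fun o : Option J => o.elim U.r U.m) A s) : ℝ) =
      (gen U A (fun j => s (some j))).coeff (s none) := by
    intro U hU Q _ _ A s
    rw [coeff_gen hU]
    congr 1
    refine Nat.card_congr (Equiv.subtypeEquivRight fun φ => ?_)
    constructor
    · rintro ⟨h1, h2⟩
      exact ⟨⟨h1, fun j => h2 (some j)⟩, h2 none⟩
    · rintro ⟨⟨h1, h2⟩, h3⟩
      refine ⟨h1, fun o => ?_⟩
      cases o with
      | none => exact h3
      | some j => exact h2 j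
  obtain ⟨f, h1, h2, h3⟩ := lovasz_tower T.K (fun o : Option J => o.elim T.r T.m)
    S.K (fun o : Option J => o.elim S.r S.m) (fun Q _ _ => finite_hom T.G)
    (fun Q _ _ => finite_hom S.G) (fun Q _ _ A s hA => by
      have h4 := key hT Q A s
      have h5 := key hS Q A s
      rw [h Q A _ hA, ← h4] at h5
      exact_mod_cast h5.symm)
  exact ⟨f, fun n n' x y hn hx => h1 n n' x y hn hx, fun n => h3 n none,
    fun n j => h3 n (some j), fun n i => h2 n i⟩

theorem finIso_sum_iff {T T' : MT J} (hT : T.Adm) (hT' : T'.Adm) {U : MT Empty}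
    (hU : IsPiece U) : FinIso (T.sum U) (T'.sum U) ↔ FinIso T T' := by
  have hUa := adm_piece hU
  constructor
  · intro h
    refine finIso_of_gen_eq hT hT' fun Q _ _ A s hA => ?_
    have h1 := gen_eq_of_finIso h Q A s
    rw [gen_sum hT hUa A hA s Empty.elim, gen_sum hT' hUa A hA s Empty.elim] at h1
    exact (rc_piece hU A hA Empty.elim).cancel h1
  · intro h
    refine finIso_of_gen_eq (adm_sum hT hUa) (adm_sum hT' hUa) fun Q _ _ A s hA => ?_
    rw [gen_sum hT hUa A hA s Empty.elim, gen_sum hT' hUa A hA s Empty.elim,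
      gen_eq_of_finIso h Q A s]

/-- **Cancellation theorem.** -/
theorem cancellation (T T' : MT J) (hT : T.Adm) (hT' : T'.Adm) (L : List (MT Empty))
    (hL : ∀ U ∈ L, IsPiece U) : FinIso (L.foldl MT.sum T) (L.foldl MT.sum T') ↔ FinIso T T' := by
  induction L generalizing T T' with
  | nil => exact Iff.rfl
  | cons U L ih =>
    have hU := hL U List.mem_cons_self
    have hUa := adm_piece hU
    rw [List.foldl_cons, List.foldl_cons, ih _ _ (adm_sum hT hUa) (adm_sum hT' hUa)
      fun V hV => hL V (List.mem_cons_of_mem _ hV)]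
    exact finIso_sum_iff hT hT' hU

end Pool.Agent.PP
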