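import Pool.Agent.Lib_helper79.PP.Gen

/-!
# The pieces (genus one, and `S^2 × S^2`) have right cancellable `gen`
-/

namespace Pool.Agent.PP

open Finset
open scoped commutatorElement

variable {Q : Type} [Group Q]

/-- If the homomorphisms are parametrized by `W × Y` such that `φ(r) = m(y)⁻¹ m(w y)`, then `gen` is
right cancellable. -/
theorem rc_of_equiv [Finite Q] (T : MT Empty) (hT : T.Adm) (A : Fin 3 → Subgroup Q)
    (s : Empty → Q) {W Y : Type}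
    [Group W] [Finite W] [Finite Y] [MulAction W Y] (m : Y → Q) (y₀ : Y)
    (hy : ∀ w : W, w • y₀ = y₀) (e : W × Y ≃ HomT T A s)
    (he : ∀ p : W × Y, (e p).1 T.r = (m p.2)⁻¹ * m (p.1 • p.2)) : RC (gen T A s) := by
  classical
  have := finite_HomT hT A s
  have := Fintype.ofFinite (HomT T A s)
  have := Fintype.ofFinite Q
  have := Fintype.ofFinite W
  have := Fintype.ofFinite Y
  intro v hv
  refine pos_cancel m y₀ hy v ?_
  rw [← Fintype.sum_prod_type' (fun (w : W) (y : Y) =>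
    (MonoidAlgebra.single ((m y)⁻¹ * m (w • y)) (1 : ℝ) : MonoidAlgebra ℝ Q)), ← hv]
  congr 1
  unfold gen
  rw [finsum_eq_sum_of_fintype]
  refine Fintype.sum_equiv e _ _ fun p => ?_
  rw [he]

theorem map_nc_le {G : Type} [Group G] {s : Set G} {φ : G →* Q} {N : Subgroup Q} (hN : N.Normal) :
    (Subgroup.normalClosure s).map φ ≤ N ↔ ∀ x ∈ s, φ x ∈ N := by
  rw [Subgroup.map_le_iff_le_comap]
  constructor
  · intro h x hx
    exact h (Subgroup.subset_normalClosure hx)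
  · intro h
    exact @Subgroup.normalClosure_le_normal _ _ _ _ (hN.comap φ) h

/-- The homomorphism with given values on the generators. -/
def toHom {g : ℕ} (z : Fin g → Q) (w : Fin g → Q) : F g →* Q :=
  FreeGroup.lift fun p => if p.2 then w p.1 else z p.1

@[simp] theorem toHom_a {g : ℕ} (z w : Fin g → Q) (i : Fin g) : toHom z w (a i) = z i := by
  simp [toHom, a]

@[simp] theorem toHom_b {g : ℕ} (z w : Fin g → Q) (i : Fin g) : toHom z w (b i) = w i := by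
  simp [toHom, b]

theorem F_hom_ext {g : ℕ} {φ ψ : F g →* Q} (ha : ∀ i, φ (a i) = ψ (a i))
    (hb : ∀ i, φ (b i) = ψ (b i)) : φ = ψ := by
  refine FreeGroup.ext_hom _ _ ?_
  rintro ⟨i, c⟩
  cases c
  · exact ha i
  · exact hb i

theorem adm_genusOne (σ : Fin 3 → Bool) : (genusOne σ).Adm :=
  ⟨inferInstanceAs (Group.FG (F 1)), fun _ => Subgroup.normalClosure_normal⟩

theorem adm_S2S2 : S2S2.Adm :=
  ⟨inferInstanceAs (Group.FG (F 2)), fun i => by
    fin_cases i <;> exact Subgroup.normalClosure_normal⟩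

theorem rc_genusOne [Finite Q] (σ : Fin 3 → Bool) (A : Fin 3 → Subgroup Q)
    (hA : ∀ i, (A i).Normal) (s : Empty → Q) : RC (gen (genusOne σ) A s) := by
  classical
  let B : Subgroup Q := ⨅ j : {j : Fin 3 // σ j = false}, A j.1
  let C : Subgroup Q := ⨅ j : {j : Fin 3 // σ j = true}, A j.1
  have hB : B.Normal := Subgroup.normal_iInf_normal fun j => hA j.1
  let act : MulAction C B := MulAction.compHom B ((MulAut.conjNormal (H := B)).comp C.subtype)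
  have hact : ∀ (c : C) (x : B), ((c • x : B) : Q) = c * x * (c : Q)⁻¹ := fun c x => rfl
  have hmem : ∀ φ : F 1 →* Q, (∀ i, ((genusOne σ).K i).map φ ≤ A i) ↔
      φ (a 0) ∈ B ∧ φ (b 0) ∈ C := by
    intro φ
    have h1 : ∀ i, ((genusOne σ).K i).map φ ≤ A i ↔ φ (if σ i then b 0 else a 0) ∈ A i := by
      intro i
      refine (map_nc_le (hA i)).trans ?_
      simp
    simp only [h1, B, C, Subgroup.mem_iInf]
    constructor
    · intro h
      refine ⟨fun j => ?_, fun j => ?_⟩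
      · have := h j.1
        rwa [j.2] at this
      · have := h j.1
        rwa [j.2] at this
    · rintro ⟨h, h'⟩ i
      cases hi : σ i
      · simpa [hi] using h ⟨i, hi⟩
      · simpa [hi] using h' ⟨i, hi⟩
  let e : C × B ≃ HomT (genusOne σ) A s :=
    { toFun := fun p => ⟨toHom (fun _ => (p.2 : Q)⁻¹) (fun _ => (p.1 : Q)), by
        rw [hmem]
        simp, fun j => j.elim⟩
      invFun := fun φ => ⟨⟨φ.1 (b 0), ((hmem φ.1).mp φ.2.1).2⟩,
        ⟨(φ.1 (a 0))⁻¹, B.inv_mem ((hmem φ.1).mp φ.2.1).1⟩⟩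
      left_inv := fun p => by
        refine Prod.ext (Subtype.ext ?_) (Subtype.ext ?_)
        · exact toHom_b _ _ _
        · change (toHom _ _ (a 0))⁻¹ = _
          rw [toHom_a, inv_inv]
      right_inv := fun φ => by
        refine Subtype.ext (F_hom_ext (fun i => ?_) fun i => ?_)
        · rw [toHom_a]
          change (φ.1 (a 0))⁻¹⁻¹ = _
          rw [inv_inv, Subsingleton.elim i 0]
        · rw [toHom_b]
          change φ.1 (b 0) = _
          rw [Subsingleton.elim i 0] }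
  refine rc_of_equiv (genusOne σ) (adm_genusOne σ) A s (W := C) (Y := B) (fun y => (y : Q)) 1
    (fun w => ?_) e fun p => ?_
  · apply Subtype.ext
    rw [hact]
    simp
  · change toHom _ _ ⁅(a 0 : F 1), b 0⁆ = _
    rw [map_commutatorElement, toHom_a, toHom_b, hact, commutatorElement_def]
    group

/-! ### `S^2 × S^2` -/

/-- The acting group. -/
def WW (A : Fin 3 → Subgroup Q) (hA : ∀ i, (A i).Normal) : Subgroup (Q × Q) where
  carrier := {w | w.1 ∈ A 0 ∧ w.2 ∈ A 1 ∧ w.2⁻¹ * w.1 ∈ A 2}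
  one_mem' := by simp [one_mem]
  mul_mem' := by
    rintro ⟨x, y⟩ ⟨x', y'⟩ ⟨h1, h2, h3⟩ ⟨h1', h2', h3'⟩
    refine ⟨mul_mem h1 h1', mul_mem h2 h2', ?_⟩
    change (y * y')⁻¹ * (x * x') ∈ A 2
    have h4 : (y * y')⁻¹ * (x * x') = (y'⁻¹ * (y⁻¹ * x) * y'⁻¹⁻¹) * (y'⁻¹ * x') := by group
    rw [h4]
    exact mul_mem ((hA 2).conj_mem _ h3 _) h3'
  inv_mem' := by
    rintro ⟨x, y⟩ ⟨h1, h2, h3⟩
    refine ⟨inv_mem h1, inv_mem h2, ?_⟩
    change y⁻¹⁻¹ * x⁻¹ ∈ A 2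
    have h4 : y⁻¹⁻¹ * x⁻¹ = y * (y⁻¹ * x)⁻¹ * y⁻¹ := by group
    rw [h4]
    exact (hA 2).conj_mem _ (inv_mem h3) _

/-- The set. -/
abbrev YY (A : Fin 3 → Subgroup Q) : Type :=
  {y : Q × Q // y.1 ∈ A 0 ∧ y.2 ∈ A 1 ∧ y.1 * y.2 ∈ A 2}

/-- The action. -/
@[reducible] def actWY (A : Fin 3 → Subgroup Q) (hA : ∀ i, (A i).Normal) :
    MulAction (WW A hA) (YY A) where
  smul w y := ⟨(w.1.2 * y.1.1 * w.1.2⁻¹, w.1.1 * y.1.2 * w.1.1⁻¹), by
    obtain ⟨⟨u, v⟩, h4, h5, h6⟩ := y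
    obtain ⟨⟨x, y⟩, h1, h2, h3⟩ := w
    refine ⟨(hA 0).conj_mem _ h4 _, (hA 1).conj_mem _ h5 _, ?_⟩
    change y * u * y⁻¹ * (x * v * x⁻¹) ∈ A 2
    have h7 : y * u * y⁻¹ * (x * v * x⁻¹) = y * ((u * v) * ((v⁻¹ * (y⁻¹ * x) * v⁻¹⁻¹) *
      (y⁻¹ * x)⁻¹)) * y⁻¹ := by group
    rw [h7]
    exact (hA 2).conj_mem _ (mul_mem h6 (mul_mem ((hA 2).conj_mem _ h3 _) (inv_mem h3))) _⟩
  one_smul y := by
    refine Subtype.ext (Prod.ext ?_ ?_)
    · change (1 : Q) * y.1.1 * 1⁻¹ = _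
      simp
    · change (1 : Q) * y.1.2 * 1⁻¹ = _
      simp
  mul_smul w w' y := by
    refine Subtype.ext (Prod.ext ?_ ?_)
    · change (w.1.2 * w'.1.2) * y.1.1 * (w.1.2 * w'.1.2)⁻¹ =
        w.1.2 * (w'.1.2 * y.1.1 * w'.1.2⁻¹) * w.1.2⁻¹
      group
    · change (w.1.1 * w'.1.1) * y.1.2 * (w.1.1 * w'.1.1)⁻¹ =
        w.1.1 * (w'.1.1 * y.1.2 * w'.1.1⁻¹) * w.1.1⁻¹
      group

theorem rc_S2S2 [Finite Q] (A : Fin 3 → Subgroup Q) (hA : ∀ i, (A i).Normal) (s : Empty → Q) :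
    RC (gen S2S2 A s) := by
  classical
  let x : F 2 := (a 0 * b 0 * (a 0)⁻¹)⁻¹
  have h0 := gen_conj S2S2 adm_S2S2.normal A s x
  rw [← h0]
  let T : MT Empty := ⟨F 2, x * (⁅(a 0 : F 2), b 0⁆ * ⁅(a 1 : F 2), b 1⁆) * x⁻¹, S2S2.K, Empty.elim⟩
  change RC (gen T A s)
  have hT : T.Adm := ⟨adm_S2S2.fg, adm_S2S2.normal⟩
  have hmem : ∀ φ : F 2 →* Q, (∀ i, (S2S2.K i).map φ ≤ A i) ↔
      (φ (a 0) ∈ A 0 ∧ φ (a 1) ∈ A 0) ∧ (φ (b 0) ∈ A 1 ∧ φ (b 1) ∈ A 1) ∧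
      ((φ (b 1))⁻¹ * φ (a 0) ∈ A 2 ∧ (φ (b 0))⁻¹ * φ (a 1) ∈ A 2) := by
    intro φ
    have h1 : (S2S2.K 0).map φ ≤ A 0 ↔ (φ (a 0) ∈ A 0 ∧ φ (a 1) ∈ A 0) := by
      refine (map_nc_le (hA 0)).trans ?_
      simp
    have h2 : (S2S2.K 1).map φ ≤ A 1 ↔ (φ (b 0) ∈ A 1 ∧ φ (b 1) ∈ A 1) := by
      refine (map_nc_le (hA 1)).trans ?_
      simp
    have h3 : (S2S2.K 2).map φ ≤ A 2 ↔
        ((φ (b 1))⁻¹ * φ (a 0) ∈ A 2 ∧ (φ (b 0))⁻¹ * φ (a 1) ∈ A 2) := by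
      refine (map_nc_le (hA 2)).trans ?_
      simp
    rw [← h1, ← h2, ← h3]
    constructor
    · intro h
      exact ⟨h 0, h 1, h 2⟩
    · rintro ⟨h, h', h''⟩ i
      fin_cases i
      · exact h
      · exact h'
      · exact h''
  let act := actWY A hA
  have hact : ∀ (w : WW A hA) (y : YY A), (w • y : YY A).1 =
    (w.1.2 * y.1.1 * w.1.2⁻¹, w.1.1 * y.1.2 * w.1.1⁻¹) := fun w y => rfl
  let e : WW A hA × YY A ≃ HomT T A s :=
    { toFun := fun p => ⟨toHom ![p.1.1.1, p.2.1.1⁻¹] ![p.2.1.2, p.1.1.2], by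
        obtain ⟨⟨⟨x, y⟩, h1, h2, h3⟩, ⟨⟨u, v⟩, h4, h5, h6⟩⟩ := p
        refine (hmem _).mpr ?_
        simp only [toHom_a, toHom_b, Matrix.cons_val_zero, Matrix.cons_val_one]
        refine ⟨⟨h1, inv_mem h4⟩, ⟨h5, h2⟩, h3, ?_⟩
        rw [← mul_inv_rev]
        exact inv_mem h6, fun j => j.elim⟩
      invFun := fun φ => ⟨⟨(φ.1 (a 0), φ.1 (b 1)), ((hmem φ.1).mp φ.2.1).1.1,
          ((hmem φ.1).mp φ.2.1).2.1.2, ((hmem φ.1).mp φ.2.1).2.2.1⟩,
        ⟨((φ.1 (a 1))⁻¹, φ.1 (b 0)), inv_mem ((hmem φ.1).mp φ.2.1).1.2,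
          ((hmem φ.1).mp φ.2.1).2.1.1, by
            have h7 := inv_mem ((hmem φ.1).mp φ.2.1).2.2.2
            rwa [mul_inv_rev, inv_inv] at h7⟩⟩
      left_inv := fun p => by
        refine Prod.ext (Subtype.ext (Prod.ext ?_ ?_)) (Subtype.ext (Prod.ext ?_ ?_))
        · exact toHom_a _ _ _
        · exact toHom_b _ _ _
        · change (toHom _ _ (a 1))⁻¹ = _
          rw [toHom_a]
          simp
        · exact toHom_b _ _ _
      right_inv := fun φ => by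
        refine Subtype.ext (F_hom_ext (fun i => ?_) fun i => ?_)
        · rw [toHom_a]
          fin_cases i
          · rfl
          · exact inv_inv _
        · rw [toHom_b]
          fin_cases i <;> rfl }
  refine rc_of_equiv T hT A s (W := WW A hA) (Y := YY A) (fun y => y.1.1 * y.1.2)
    ⟨(1, 1), one_mem _, one_mem _, by simp [one_mem]⟩ (fun w => ?_) e fun p => ?_
  · refine Subtype.ext ?_
    rw [hact]
    simp
  · change toHom _ _ (x * (⁅(a 0 : F 2), b 0⁆ * ⁅(a 1 : F 2), b 1⁆) * x⁻¹) = _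
    simp only [x, map_mul, map_inv, map_commutatorElement, toHom_a, toHom_b, hact,
      commutatorElement_def, Matrix.cons_val_zero, Matrix.cons_val_one]
    group

theorem adm_piece {U : MT Empty} (hU : IsPiece U) : U.Adm := by
  rcases hU with rfl | ⟨σ, rfl⟩
  · exact adm_S2S2
  · exact adm_genusOne σ

theorem rc_piece [Finite Q] {U : MT Empty} (hU : IsPiece U) (A : Fin 3 → Subgroup Q)
    (hA : ∀ i, (A i).Normal) (s : Empty → Q) : RC (gen U A s) := by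
  rcases hU with rfl | ⟨σ, rfl⟩
  · exact rc_S2S2 A hA s
  · exact rc_genusOne σ A hA s

end Pool.Agent.PP
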